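import Pool.Agent.MP_fafee5_lc.H68.Example

namespace Pool.Agent.MP_fafee5_lc.H72

open Pool.Agent.MP_fafee5_lc.H68 Filter Topology

/-- fibre parameters: a shift and a cut-off -/
abbrev P : Type := ℤ × WithTop ℤ

/-- the fibre -/
abbrev J : Type := WithTop ℤ ⊕ ℤ

/-- product of fibre parameters (`p` after `q`) -/
def mulP (p q : P) : P := (q.1 + p.1, min (q.2 + (p.1 : WithTop ℤ)) p.2)

/-- first fibre action: `j ↦ min (j + k) a` on `ℤ ∪ {⊤}`, the shift on the second copy -/
def fib1 (p : P) : J → J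
  | Sum.inl j => Sum.inl (min (j + (p.1 : WithTop ℤ)) p.2)
  | Sum.inr i => Sum.inr (i + p.1)

/-- second fibre action: the same, with the top point fixed -/
def fib2 (p : P) : J → J
  | Sum.inl j => if j = ⊤ then Sum.inl ⊤ else Sum.inl (min (j + (p.1 : WithTop ℤ)) p.2)
  | Sum.inr i => Sum.inr (i + p.1)

theorem fib1_mul (p q : P) (j : J) : fib1 (mulP p q) j = fib1 p (fib1 q j) := by
  rcases j with j | i
  · simp only [fib1, mulP, WithTop.coe_add, ← min_add_add_right, min_assoc, add_assoc]
  · simp only [fib1, mulP, add_assoc]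

theorem fib2_mul (p q : P) (j : J) : fib2 (mulP p q) j = fib2 p (fib2 q j) := by
  rcases j with j | i
  · by_cases h : j = ⊤
    · simp [fib2, h]
    · have h2 : min (j + (q.1 : WithTop ℤ)) q.2 ≠ ⊤ := by
        have : j + (q.1 : WithTop ℤ) ≠ ⊤ := WithTop.add_ne_top.2 ⟨h, WithTop.coe_ne_top⟩
        exact ne_top_of_le_ne_top this (min_le_left _ _)
      simp only [fib2, h, h2, if_false, mulP, WithTop.coe_add, ← min_add_add_right, min_assoc,
        add_assoc]
  · simp only [fib2, mulP, add_assoc]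

theorem fib1_one (j : J) : fib1 (0, ⊤) j = j := by
  rcases j with j | i <;> simp [fib1]

theorem fib2_one (j : J) : fib2 (0, ⊤) j = j := by
  rcases j with j | i
  · by_cases h : j = ⊤ <;> simp [fib2, h]
  · simp [fib2]

theorem mulP_one (p : P) : mulP p (0, ⊤) = p := by
  simp [mulP]

theorem fib1_det {p q : P} (h1 : fib1 p (Sum.inl ⊤) = fib1 q (Sum.inl ⊤))
    (h2 : fib1 p (Sum.inr 0) = fib1 q (Sum.inr 0)) : p = q := by
  simp only [fib1, top_add, min_eq_right le_top, Sum.inl.injEq, zero_add, Sum.inr.injEq] at h1 h2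
  exact Prod.ext h2 h1

theorem fib2_det {p q : P} {j : ℤ} (h1 : fib2 p (Sum.inl j) = fib2 q (Sum.inl j))
    (h2 : fib2 p (Sum.inr 0) = fib2 q (Sum.inr 0))
    (h3 : fib2 p (Sum.inl j) ≠ Sum.inl ((j : WithTop ℤ) + (p.1 : WithTop ℤ))) : p = q := by
  simp only [fib2, WithTop.coe_ne_top, if_false, Sum.inl.injEq, zero_add, Sum.inr.injEq,
    ne_eq] at h1 h2 h3
  refine Prod.ext h2 ?_
  rw [← h2] at h1
  rcases min_choice ((j : WithTop ℤ) + (p.1 : WithTop ℤ)) p.2 with a | a
  · exact absurd a h3
  · rcases min_choice ((j : WithTop ℤ) + (p.1 : WithTop ℤ)) q.2 with b | b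
    · exact absurd (h1.trans b) h3
    · rw [← a, h1, b]

theorem fib2_inj {p q : P} (h : ∀ j, fib2 p j = fib2 q j) : p = q := by
  have key : ∀ p q : P, (∀ j, fib2 p j = fib2 q j) → p.2 ≠ ⊤ → p = q := by
    intro p q h hp
    obtain ⟨a, ha⟩ := WithTop.ne_top_iff_exists.1 hp
    refine fib2_det (j := a - p.1 + 1) (h _) (h _) ?_
    simp only [fib2, WithTop.coe_ne_top, if_false, ne_eq, Sum.inl.injEq, ← ha, ← WithTop.coe_add,
      ← WithTop.coe_min, WithTop.coe_inj]
    omega
  by_cases hp : p.2 = ⊤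
  · by_cases hq : q.2 = ⊤
    · have := h (Sum.inr 0)
      simp only [fib2, zero_add, Sum.inr.injEq] at this
      exact Prod.ext this (hp.trans hq.symm)
    · exact (key q p (fun j => (h j).symm) hq).symm
  · exact key p q h hp

/-- the image of a fibre action is closed under pointwise limits -/
def FibClosed (fib : P → J → J) : Prop :=
  ∀ h : J → J, (∀ F : Finset J, ∃ p, ∀ j ∈ F, fib p j = h j) → ∃ p, ∀ j, fib p j = h j

theorem fibClosed1 : FibClosed fib1 := by
  classical
  intro h hh
  obtain ⟨p, hp⟩ := hh {Sum.inl ⊤, Sum.inr 0}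
  refine ⟨p, fun j => ?_⟩
  obtain ⟨q, hq⟩ := hh {j, Sum.inl ⊤, Sum.inr 0}
  have : p = q := fib1_det ((hp _ (by simp)).trans (hq _ (by simp)).symm)
    ((hp _ (by simp)).trans (hq _ (by simp)).symm)
  rw [this]
  exact hq j (by simp)

theorem fibClosed2 : FibClosed fib2 := by
  classical
  intro h hh
  obtain ⟨p, hp⟩ := hh {Sum.inr 0}
  by_cases hc : ∀ j : ℤ, h (Sum.inl j) = Sum.inl ((j : WithTop ℤ) + (p.1 : WithTop ℤ))
  · refine ⟨(p.1, ⊤), fun j => ?_⟩
    obtain ⟨q, hq⟩ := hh {j, Sum.inr 0}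
    have h1 : p.1 = q.1 := by
      have := (hp _ (by simp)).trans (hq (Sum.inr 0) (by simp)).symm
      simpa [fib2] using this
    rcases j with j | i
    · by_cases ht : j = ⊤
      · rw [← hq _ (by simp)]
        simp [fib2, ht]
      · obtain ⟨j, rfl⟩ := WithTop.ne_top_iff_exists.1 ht
        rw [hc j]
        simp [fib2]
    · rw [← hq _ (by simp)]
      simp [fib2, h1]
  · push Not at hc
    obtain ⟨j0, hj0⟩ := hc
    obtain ⟨p', hp'⟩ := hh {Sum.inl (j0 : WithTop ℤ), Sum.inr 0}
    have h1 : p.1 = p'.1 := by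
      have := (hp _ (by simp)).trans (hp' (Sum.inr 0) (by simp)).symm
      simpa [fib2] using this
    refine ⟨p', fun j => ?_⟩
    obtain ⟨q, hq⟩ := hh {j, Sum.inl (j0 : WithTop ℤ), Sum.inr 0}
    have : p' = q := fib2_det (j := j0) ((hp' _ (by simp)).trans (hq _ (by simp)).symm)
      ((hp' _ (by simp)).trans (hq _ (by simp)).symm)
      (by rw [hp' _ (by simp), ← h1]; exact hj0)
    rw [this]
    exact hq j (by simp)

/-- elements of the wreath product -/
abbrev W : Type := ℕ → ℕ × P

/-- product in the wreath product (`u` after `v`) -/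
def mulW (u v : W) : W := fun x => ((u (v x).1).1, mulP (u (v x).1).2 (v x).2)

/-- a self-map of the base as an element of the wreath product -/
def base (f : ℕ → ℕ) : W := fun x => (f x, (0, ⊤))

theorem mulW_base (u : W) (f : ℕ → ℕ) : mulW u (base f) = u ∘ f := by
  funext x
  simp [mulW, base, mulP_one]

/-- an uncountable almost disjoint family of injections -/
def branch (s : ℕ → Bool) (n : ℕ) : ℕ := Encodable.encode (List.ofFn fun i : Fin n => s i)

theorem branch_eq {s t : ℕ → Bool} {n m : ℕ} (h : branch s n = branch t m) :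
    n = m ∧ ∀ i < n, s i = t i := by
  have h1 := Encodable.encode_injective h
  have h2 : n = m := by simpa using congrArg List.length h1
  subst h2
  refine ⟨rfl, fun i hi => ?_⟩
  exact congrFun (List.ofFn_injective h1) ⟨i, hi⟩

/-- Every point of a countable set on which the wreath product acts has a finite support. -/
theorem finite_support {X : Type} [Countable X] (ψ : W → X → X)
    (hψ : ∀ u v x, ψ (mulW u v) x = ψ u (ψ v x)) (x : X) :
    ∃ N : ℕ, ∀ g h : W, (∀ n < N, g n = h n) → ψ g x = ψ h x := by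
  classical
  have hni : ¬ Function.Injective fun s : ℕ → Bool => ψ (base (branch s)) x := by
    intro hi
    have := hi.countable
    obtain ⟨a, ha⟩ := exists_surjective_nat (ℕ → Bool)
    obtain ⟨n, hn⟩ := ha fun n => !(a n n)
    have := congrFun hn n
    simp at this
  obtain ⟨s, t, hst, hne⟩ := Function.not_injective_iff.1 hni
  obtain ⟨i, hi⟩ := Function.ne_iff.1 hne
  have hinj : Function.Injective (branch s) := fun n m h => (branch_eq h).1
  obtain ⟨r, hr⟩ := hinj.hasLeftInverse
  refine ⟨i + 1, fun g h hgh => ?_⟩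
  let k : W := fun y => if y ∈ Set.range (branch s) then g (r y) else h (r y)
  have e1 : g = mulW k (base (branch s)) := by
    rw [mulW_base]
    funext n
    simp [k, hr n]
  have e2 : mulW k (base (branch t)) = mulW (h ∘ r) (base (branch t)) := by
    rw [mulW_base, mulW_base]
    funext m
    simp only [Function.comp, k]
    split_ifs with hm
    · obtain ⟨n, hn⟩ := hm
      rw [← hn, hr n]
      refine hgh n ?_
      by_contra hlt
      exact hi ((branch_eq hn).2 i (by omega))
    · rfl
  have e3 : h = mulW (h ∘ r) (base (branch s)) := by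
    rw [mulW_base]
    funext n
    simp [hr n]
  have hst' : ψ (base (branch s)) x = ψ (base (branch t)) x := hst
  calc ψ g x = ψ k (ψ (base (branch s)) x) := by rw [← hψ, ← e1]
    _ = ψ (mulW k (base (branch t))) x := by rw [hst', hψ]
    _ = ψ (h ∘ r) (ψ (base (branch s)) x) := by rw [e2, hψ, hst']
    _ = ψ h x := by rw [← hψ, ← e3]

section
variable {Ω : Type} (e : Ω ≃ ℕ × J)

/-- the action of the wreath product built from a fibre action -/
def act (fib : P → J → J) (w : W) : Function.End Ω :=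
  fun z => e.symm ((w (e z).1).1, fib (w (e z).1).2 (e z).2)

theorem act_at (fib : P → J → J) (w : W) (x : ℕ) (j : J) :
    e (act e fib w (e.symm (x, j))) = ((w x).1, fib (w x).2 j) := by
  simp [act]

theorem act_mul {fib : P → J → J} (hf : ∀ p q j, fib (mulP p q) j = fib p (fib q j)) (u v : W) :
    act e fib u * act e fib v = act e fib (mulW u v) := by
  funext z
  change act e fib u (act e fib v z) = _
  simp [act, mulW, hf]

theorem act_one {fib : P → J → J} (hf : ∀ j, fib (0, ⊤) j = j) : act e fib (base id) = 1 := by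
  funext z
  change _ = z
  simp [act, base, hf]

/-- the image of the wreath product -/
def img (fib : P → J → J) (h1 : ∀ j, fib (0, ⊤) j = j)
    (hm : ∀ p q j, fib (mulP p q) j = fib p (fib q j)) : Submonoid (Function.End Ω) where
  carrier := Set.range (act e fib)
  one_mem' := ⟨base id, act_one e h1⟩
  mul_mem' := by
    rintro _ _ ⟨a, rfl⟩ ⟨b, rfl⟩
    exact ⟨mulW a b, (act_mul e hm a b).symm⟩

theorem inM_img {fib : P → J → J} (h1 : ∀ j, fib (0, ⊤) j = j)
    (hm : ∀ p q j, fib (mulP p q) j = fib p (fib q j)) (hc : FibClosed fib) :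
    InM (img e fib h1 hm) := by
  classical
  refine inM_of_approx fun f hf => ?_
  have key : ∀ x : ℕ, ∃ yp : ℕ × P, ∀ j, e (f (e.symm (x, j))) = (yp.1, fib yp.2 j) := by
    intro x
    obtain ⟨p, hp⟩ := hc (fun j => (e (f (e.symm (x, j)))).2) (fun F => by
      obtain ⟨_, ⟨w, rfl⟩, hw⟩ := hf (F.image fun j => e.symm (x, j))
      refine ⟨(w x).2, fun j hj => ?_⟩
      rw [← hw _ (Finset.mem_image_of_mem _ hj), act_at])
    refine ⟨((e (f (e.symm (x, Sum.inr 0)))).1, p), fun j => Prod.ext ?_ (hp j).symm⟩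
    obtain ⟨_, ⟨w, rfl⟩, hw⟩ := hf {e.symm (x, j), e.symm (x, Sum.inr 0)}
    rw [← hw _ (by simp), ← hw (e.symm (x, Sum.inr 0)) (by simp), act_at, act_at]
  choose w hw using key
  refine ⟨w, funext fun z => ?_⟩
  apply e.injective
  have := hw (e z).1 (e z).2
  rw [Prod.mk.eta, Equiv.symm_apply_apply] at this
  rw [this]
  simp [act]

theorem act_inj {fib : P → J → J} (hi : ∀ p q, (∀ j, fib p j = fib q j) → p = q) :
    Function.Injective (act e fib) := by
  intro u v h
  funext x
  have key : ∀ j, ((u x).1, fib (u x).2 j) = ((v x).1, fib (v x).2 j) := fun j => by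
    rw [← act_at e, ← act_at e, h]
  exact Prod.ext (Prod.mk.inj (key (Sum.inr 0))).1 (hi _ _ fun j => (Prod.mk.inj (key j)).2)

/-- the example -/
def S1 : Submonoid (Function.End Ω) := img e fib1 fib1_one fib1_mul

/-- its coarser closed copy -/
def S2 : Submonoid (Function.End Ω) := img e fib2 fib2_one fib2_mul

theorem act1_inj : Function.Injective (act e fib1) :=
  act_inj e fun _ _ h => fib1_det (h _) (h _)

theorem act2_inj : Function.Injective (act e fib2) :=
  act_inj e fun _ _ h => fib2_inj h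

theorem autoCont_S1 [Countable Ω] : AutoCont (S1 e) := by
  intro T _ φ
  let _ := sub (S1 e)
  refine continuous_to_sub _ ?_
  rintro ⟨_, g, rfl⟩ c
  obtain ⟨N, hN⟩ := finite_support (fun w => (φ ⟨act e fib1 w, w, rfl⟩).1) (fun u v x => by
    have : (⟨act e fib1 (mulW u v), _, rfl⟩ : S1 e) =
        ⟨act e fib1 u, u, rfl⟩ * ⟨act e fib1 v, v, rfl⟩ :=
      Subtype.ext (act_mul e fib1_mul u v).symm
    rw [this, map_mul]
    rfl) c
  have h1 : ∀ᶠ u : S1 e in 𝓝 ⟨act e fib1 g, g, rfl⟩, ∀ n ∈ Finset.range N,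
      u.1 (e.symm (n, Sum.inl ⊤)) = act e fib1 g (e.symm (n, Sum.inl ⊤)) ∧
      u.1 (e.symm (n, Sum.inr 0)) = act e fib1 g (e.symm (n, Sum.inr 0)) :=
    (eventually_all_finset _).2 fun n _ =>
      Eventually.and (agree_mem_nhds_sub _ _) (agree_mem_nhds_sub _ _)
  refine mem_of_superset h1 ?_
  rintro ⟨_, h, rfl⟩ hh
  refine hN h g fun n hn => ?_
  obtain ⟨a, b⟩ := hh n (Finset.mem_range.2 hn)
  have a' := congrArg e a
  have b' := congrArg e b
  simp only [act_at, Prod.mk.injEq] at a' b'
  exact Prod.ext a'.1 (fib1_det a'.2 b'.2)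

theorem perfect_S1 (s : S1 e) : ¬ @IsOpen (S1 e) (sub (S1 e)) {s} := by
  classical
  let _ := sub (S1 e)
  intro ho
  obtain ⟨_, w, rfl⟩ := s
  obtain ⟨F, hF⟩ := mem_nhds_sub (ho.mem_nhds rfl)
  obtain ⟨x, hx⟩ := Infinite.exists_notMem_finset (F.image fun z => (e z).1)
  have h1 := hF ⟨act e fib1 (Function.update w x ((w x).1 + 1, (w x).2)), _, rfl⟩ (by
    intro z hz
    have : (e z).1 ≠ x := fun h => hx (h ▸ Finset.mem_image_of_mem (fun z => (e z).1) hz)
    simp [act, Function.update_of_ne this])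
  have h2 := congrFun (act1_inj e (congrArg Subtype.val h1)) x
  simp only [Function.update_self] at h2
  have := congrArg Prod.fst h2
  simp at this

/-- swap two fibres and shift -/
def swW (x : ℕ) (k : ℤ) : W := fun y => (Equiv.swap 0 x y, (k, ⊤))

theorem swW_mul (x : ℕ) {k l : ℤ} (h : l + k = 0) :
    act e fib1 (swW x k) * act e fib1 (swW x l) = 1 := by
  rw [act_mul e fib1_mul, ← act_one e fib1_one]
  congr 1
  funext y
  simp [mulW, mulP, base, swW, h]

/-- a unit: swap two fibres and shift -/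
def unit1 (x : ℕ) (k : ℤ) : (S1 e)ˣ where
  val := ⟨act e fib1 (swW x k), _, rfl⟩
  inv := ⟨act e fib1 (swW x (-k)), _, rfl⟩
  val_inv := Subtype.ext (swW_mul e x (by simp))
  inv_val := Subtype.ext (swW_mul e x (by simp))

theorem finite_orbits : Finite (MulAction.orbitRel.Quotient (S1 e)ˣ Ω) := by
  let rep : Option Bool → J := fun o =>
    match o with
    | none => Sum.inl ⊤
    | some true => Sum.inl (0 : ℤ)
    | some false => Sum.inr 0
  refine Finite.of_surjective (fun o : Option Bool =>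
    (Quotient.mk'' (e.symm (0, rep o)) : MulAction.orbitRel.Quotient (S1 e)ˣ Ω)) ?_
  intro q
  induction q using Quotient.inductionOn' with
  | h z =>
    have key : ∃ o k, fib1 (k, ⊤) (rep o) = (e z).2 := by
      rcases (e z).2 with j | i
      · by_cases h : j = ⊤
        · exact ⟨none, 0, by simp [rep, fib1, h]⟩
        · obtain ⟨j, rfl⟩ := WithTop.ne_top_iff_exists.1 h
          exact ⟨some true, j, by simp [rep, fib1]⟩
      · exact ⟨some false, i, by simp [rep, fib1]⟩
    obtain ⟨o, k, hk⟩ := key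
    refine ⟨o, Eq.symm (Quotient.sound' ?_)⟩
    rw [MulAction.orbitRel_apply]
    refine ⟨unit1 e (e z).1 k, ?_⟩
    apply e.injective
    change e (act e fib1 (swW (e z).1 k) (e.symm (0, rep o))) = _
    rw [act_at]
    simp [swW, hk]

/-- the algebraic isomorphism, as a homomorphism -/
noncomputable def hom12 : S1 e →ₙ* S2 e where
  toFun s := ⟨act e fib2 s.2.choose, _, rfl⟩
  map_mul' s t := by
    refine Subtype.ext ?_
    change act e fib2 (s * t).2.choose = act e fib2 s.2.choose * act e fib2 t.2.choose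
    rw [act_mul e fib2_mul]
    congr 1
    apply act1_inj e
    rw [← act_mul e fib1_mul, (s * t).2.choose_spec, s.2.choose_spec, t.2.choose_spec]
    rfl

theorem hom12_act (w : W) : hom12 e ⟨act e fib1 w, w, rfl⟩ = ⟨act e fib2 w, w, rfl⟩ := by
  refine Subtype.ext ?_
  change act e fib2 (⟨act e fib1 w, w, rfl⟩ : S1 e).2.choose = act e fib2 w
  congr 1
  exact act1_inj e (⟨act e fib1 w, w, rfl⟩ : S1 e).2.choose_spec

theorem hom12_bij : Function.Bijective (hom12 e) := by
  constructor
  · rintro ⟨_, a, rfl⟩ ⟨_, b, rfl⟩ h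
    rw [hom12_act, hom12_act] at h
    have : a = b := act2_inj e (congrArg Subtype.val h)
    subst this
    rfl
  · rintro ⟨_, a, rfl⟩
    exact ⟨_, hom12_act e a⟩

theorem not_autoHomeo_S1 : ¬ AutoHomeo (S1 e) := by
  classical
  intro h
  let _ := sub (S1 e)
  let _ := sub (S2 e)
  have h1 := h (S2 e) (inM_img e _ _ fibClosed2) (MulEquiv.ofBijective (hom12 e) (hom12_bij e))
  have h2 := h1.isOpenMap.image_mem_nhds
    (agree_mem_nhds_sub (⟨act e fib1 (base id), _, rfl⟩ : S1 e) (e.symm (0, Sum.inl ⊤)))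
  have h3 : ∀ w, (MulEquiv.ofBijective (hom12 e) (hom12_bij e)) ⟨act e fib1 w, w, rfl⟩ =
      ⟨act e fib2 w, w, rfl⟩ := hom12_act e
  rw [h3] at h2
  obtain ⟨F, hF⟩ := mem_nhds_sub h2
  let b : J → ℤ := fun j => Sum.elim (fun a : WithTop ℤ => a.untopD 0) id j
  obtain ⟨n, hn⟩ := (F.image fun z => b (e z).2).bddAbove
  obtain ⟨⟨_, w, rfl⟩, hw, hw2⟩ := hF ⟨act e fib2 fun x => (x, (0, (n : WithTop ℤ))), _, rfl⟩ (by
    intro z hz
    have hb : b (e z).2 ≤ n := hn (Finset.mem_coe.2 (Finset.mem_image_of_mem _ hz))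
    have : fib2 (0, (n : WithTop ℤ)) (e z).2 = fib2 (0, ⊤) (e z).2 := by
      revert hb
      rcases (e z).2 with j | i
      · by_cases ht : j = ⊤
        · simp [fib2, ht]
        · obtain ⟨j, rfl⟩ := WithTop.ne_top_iff_exists.1 ht
          simp [fib2, b]
      · simp [fib2]
    simp [act, base, this])
  rw [h3] at hw2
  have h4 : w = fun x => (x, (0, (n : WithTop ℤ))) := act2_inj e (congrArg Subtype.val hw2)
  have h5 : act e fib1 w (e.symm (0, Sum.inl ⊤)) =
      act e fib1 (base id) (e.symm (0, Sum.inl ⊤)) := hw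
  have h6 := congrArg e h5
  rw [act_at, act_at, h4] at h6
  simp [fib1, base] at h6

end

end Pool.Agent.MP_fafee5_lc.H72
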